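import Pool.Agent.H8.DS.TarG
import Pool.Agent.H8.DS.TarK

namespace Pool.Agent.H81.DS

open _root_.DS _root_.DS.Data Set

/-- a countable set misses a point of every interval -/
theorem exists_notMem {A : Set ℝ} (hA : A.Countable) (x : ℝ) {ε : ℝ} (hε : 0 < ε) :
    ∃ δ, |δ| < ε ∧ x + δ ∉ A := by
  obtain ⟨y, hy1, hy2⟩ := (hA.dense_compl ℝ).exists_mem_open isOpen_Ioo
    (nonempty_Ioo.mpr (show x - ε < x + ε by linarith))
  refine ⟨y - x, ?_, ?_⟩
  · rw [abs_lt]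
    constructor <;> linarith [hy2.1, hy2.2]
  · rw [add_sub_cancel]
    exact hy1

theorem pf_K2B (hGEN : T_GEN) (hINV : T_INV) (hOPEN : T_OPEN) : T_K2B := by
  intro C S _ X hX t h y y' hit hflat
  obtain ⟨α, hα, ε, hε, hop⟩ := hOPEN C S X hX t y y' hit
  constructor
  · intro hR
    obtain ⟨δ, hδ, hg⟩ := exists_notMem (hGEN C S X hX t y.1) y.2 hε
    have h1 := hop δ hδ
    have hg' : X.Gen t (y.1, y.2 + δ) := by
      by_contra hcon
      exact hg hcon
    have h2 := h y.1 hR (y.2 + δ) h1.1 hg'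
    exact ⟨y'.2 + α * δ, h1.2.1, ((hINV C S X hX t _ _ h1).2 hflat).mp h2⟩
  · intro hR
    obtain ⟨δ, hδ, hg⟩ := exists_notMem (hGEN C S X hX t y'.1) y'.2 (mul_pos hα hε)
    have hδ' : |δ / α| < ε := by
      rw [abs_div, abs_of_pos hα, div_lt_iff₀ hα, mul_comm]
      exact hδ
    have h1 := hop (δ / α) hδ'
    have h3 : α * (δ / α) = δ := by field_simp
    rw [h3] at h1
    have hg' : X.Gen t (y'.1, y'.2 + δ) := by
      by_contra hcon
      exact hg hcon
    have h2 := h y'.1 hR (y'.2 + δ) h1.2.1 hg'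
    exact ⟨y.2 + δ / α, h1.1, ((hINV C S X hX t _ _ h1).2 hflat).mpr h2⟩

end Pool.Agent.H81.DS
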