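import Pool.Agent.H8.DS.TarG

namespace Pool.Agent.H81.DS

open _root_.DS _root_.DS.Data

theorem pf_NEG : T_NEG := by
  intro C S X hX hU c hc z hz
  refine ⟨?_, fun _ h0 => ?_⟩
  · rintro ⟨s, hs, g, hg, ξ, -, rfl⟩
    obtain ⟨k, rfl⟩ := hg
    have hgood := hX.good c
    have hb : 0 ≤ X.b s := hU s (by rw [hs]; exact hc)
    cases hk : X.kind c with
    | flat e f => unfold Data.Hopf at hc; rw [hk] at hc; exact hc
    | hopf l =>
      rw [hk] at hgood hz
      simp only [Comp.Good] at hgood
      simp only [Comp.el, act, pt, add_zero] at hz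
      have h1 : 0 < l ^ k.1 := zpow_pos (by linarith) _
      have h2 := mul_nonneg h1.le hb
      linarith
  · rw [h0] at hz
    simp at hz

end Pool.Agent.H81.DS
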